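import Pool.Agent.Q80.AC.Stm2

set_option autoImplicit false

/-!
# Project AC (helper80), job DW
-/

open MeasureTheory Topology Filter
open scoped ENNReal NNReal ComplexConjugate

noncomputable section

namespace Pool.Agent.Q176.AC.DW

open Pool.Agent.Q80.AC

/-- Job DW. -/
theorem t_DW (h1 : S_RB) : S_DW := by
  intro H _ _ _ _ _ _ _ _ m _ u hu f hf
  obtain ⟨-, hcont, hnn⟩ := h1 H m u hu
  refine tendsto_integral_filter_of_dominated_convergence (fun s => ‖f s‖) ?_ ?_ hf.norm ?_
  · refine Eventually.of_forall fun t => ?_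
    refine AEStronglyMeasurable.mul ?_ hf.1
    have h2 : Continuous fun s => (Rr u 0 t s : ℂ) := by
      unfold Rr
      exact Complex.continuous_ofReal.comp (Real.continuous_exp.comp ((continuous_const.mul (hcont 0)).neg))
    exact h2.aestronglyMeasurable
  · filter_upwards [self_mem_nhdsWithin] with t ht
    refine Eventually.of_forall fun s => ?_
    have ht0 : (0 : ℝ) < t := ht
    have h0 : 0 ≤ Rr u 0 t s := (Real.exp_pos _).le
    rw [norm_mul, Complex.norm_real, Real.norm_of_nonneg h0]
    have h3 : Rr u 0 t s ≤ 1 := by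
      unfold Rr
      rw [Real.exp_le_one_iff]
      have := mul_nonneg ht0.le (hnn 0 s)
      linarith
    calc Rr u 0 t s * ‖f s‖ ≤ 1 * ‖f s‖ := mul_le_mul_of_nonneg_right h3 (norm_nonneg _)
      _ = ‖f s‖ := one_mul _
  · refine Eventually.of_forall fun s => ?_
    have h2 : Tendsto (fun t : ℝ => (Rr u 0 t s : ℂ) * f s) (𝓝 0) (𝓝 ((Rr u 0 0 s : ℂ) * f s)) := by
      have h3 : Continuous fun t : ℝ => (Rr u 0 t s : ℂ) * f s := by
        unfold Rr
        fun_prop
      exact h3.tendsto 0
    have h4 : (Rr u 0 0 s : ℂ) * f s = f s := by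
      unfold Rr
      simp
    rw [h4] at h2
    exact h2.mono_left nhdsWithin_le_nhds

end Pool.Agent.Q176.AC.DW
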