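import Pool.Agent.Q80.AC.Stm2

set_option autoImplicit false

/-!
# Project AC (helper80), job FAID
-/

open MeasureTheory Topology Filter
open scoped ENNReal NNReal ComplexConjugate

noncomputable section

namespace Pool.Agent.Q176.AC.FAID

open Pool.Agent.Q80.AC

lemma posDef_one {H : Type} [Group H] {θ : H → ℂ} (h : PosDef θ) : 0 ≤ (θ 1).re := by
  have h1 := (h 1 (fun _ => 1) (fun _ => 1)).2
  simpa using h1

/-- Job FAID. -/
theorem t_FAID (h1 : S_IDEAL) (h2 : S_FASUM) : S_FAID := by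
  intro H _ _ _ _ _ _ _ _ m _ C u θ hu hp hc
  obtain ⟨ξ, η, hs, hle, hu⟩ := hu
  have h0 := posDef_one hp
  have h3 := h2 H m (fun n => ‖ξ n‖ * ‖η n‖ * (θ 1).re) (fun n s => θ s * inner ℂ (η n) (lam m s (ξ n)))
    (fun n => h1 H m θ (ξ n) (η n) hp hc) (hs.mul_right _)
  obtain ⟨ξ', η', a1, a2, a3⟩ := h3
  refine ⟨ξ', η', a1, a2.trans ?_, fun s => ?_⟩
  · rw [tsum_mul_right]
    exact mul_le_mul_of_nonneg_right hle h0
  · rw [← a3 s]
    show θ s * u s = ∑' k : ℕ, θ s * inner ℂ (η k) (lam m s (ξ k))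
    rw [hu s, tsum_mul_left]

end Pool.Agent.Q176.AC.FAID
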